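import Pool.Agent.Lib.MP_a80c92_pr.Main

/-!
# Strongly unimodal infinitely divisible laws: the answer in a class of Lévy measures

Let `μ` be the infinitely divisible law with Lévy-Khinchin triple `(g, s2, ν)`,
`ν(dx) = kR(x)/x dx` on `(0, ∞)` and `ν(dx) = kL(|x|)/|x| dx` on `(-∞, 0)`, where each of `kR`,
`kL` belongs to the class `InClass`: it is zero, or of the form `e^{-lam x} m(x)` with `lam ≥ 0` and
`m > 0` nonincreasing, `e^{εx} m(x)` unbounded on `(1, ∞)` for all `ε > 0`, or positive and
log-convex. Then `μ` is strongly unimodal if and only if each of `kR`, `kL` is zero or satisfies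
`lim_{x → ∞} e^{lam x} k(x) ∈ [1, ∞)` for some `lam > 0`; the drift `g` and the Gaussian variance
`s2` play no role. All extended generalised gamma convolutions are in the class.

Idea of the proof. Sufficiency: the one-sided jump part is approximated by compound Poisson laws
on lattices, whose weights `q` satisfy `n q_n = ∑ r_j q_{n-j}`, `r_j = ρ^j M_j`, `M_j ≥ 1`
nonincreasing; an elementary induction shows that `q` is log-concave, so it preserves discrete
unimodality, and the limit is strongly unimodal; Gaussian parts come from Poisson laws, and two
sides from convolution. Necessity: if `μ` is strongly unimodal then the density of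
`μ ∗ N(0,1)` is log-concave (Ibragimov, reproved), so it is at least `c e^{-lam x}` where `lam` is
the abscissa of its exponential moments, and so `∫_{x>1} e^{sx} ν(dx) ≥ log (1/(lam - s)) - C`.
-/

namespace Pool.Agent.Results.MP_a80c92_pr.ClassCharacterisation

open MeasureTheory Pool.Agent.Lib.MP_a80c92_pr

/-- Characterisation of strong unimodality for all triples whose Lévy measure is given by two
functions of the class `InClass`. -/
theorem result (μ : Measure ℝ) [IsProbabilityMeasure μ] (g s2 : ℝ) (kR kL : ℝ → ℝ)
    (h : HasTriple μ g s2 (levyOf kR kL)) (hR : InClass kR) (hL : InClass kL) :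
    StronglyUnimodal μ ↔ Cond kR ∧ Cond kL :=
  main_class μ g s2 kR kL h hR hL

end Pool.Agent.Results.MP_a80c92_pr.ClassCharacterisation
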