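import Pool.Agent.Lib.MP_a80c92_pr.F.FMain

/-!
# Arbitrary Lévy measures with bounded support: strong unimodality beyond a Gaussian threshold

Let `ρ` be any Lévy measure with bounded support and `lamR, lamL > 0`. There is `S0` such that for
all `s2 ≥ S0` and all `g` the infinitely divisible law with triple
`(g, s2, ρ(dx) + e^{-lamR x}/x 1_{x > 0} dx + e^{-lamL |x|}/|x| 1_{x < 0} dx)` is strongly unimodal.
So the Lévy measure of a strongly unimodal law may have atoms or singular parts, and the answer
for `ν` depends on the Gaussian variance.

Idea of the proof. For finite `ρ`: `Y` the centred compound Poisson law, `h` the density of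
`Y + N(0, v)`. With `E_x` the expectation with weight `e^{(xY - Y²/2)/v}`, `(log h)' = -(x - E_x Y)/v`
and `(log h)'' = -1/v + Var_x(Y)/v²`. For `|x| ≤ s` the variance is bounded, so `log h` is concave
there if `v` is large; for `|x| ≥ s` Mecke's formula gives `|(log h)'| ≥ lam`. Convolution of such
an `h` with the exponential laws on both sides is log-concave, by two integrations of a Riccati
type inequality. A positive log-concave density is strongly unimodal (discretisation). General
`ρ`: truncation at `|x| > 1/n` and closedness under weak limits.
-/

namespace Pool.Agent.Results.MP_a80c92_pr.GaussianThreshold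

open MeasureTheory Pool.Agent.Lib.MP_a80c92_pr

/-- Every Lévy measure with bounded support, together with exponential ends on both sides and a
sufficiently large Gaussian part, gives a strongly unimodal law. -/
theorem result (ρ : Measure ℝ) (hρ : IsLevy ρ) (B : ℝ) (hB : ρ {x : ℝ | B < |x|} = 0)
    (lamR lamL : ℝ) (hR : 0 < lamR) (hL : 0 < lamL) :
    ∃ S0 : ℝ, ∀ s2 : ℝ, S0 ≤ s2 → ∀ (g : ℝ) (μ : Measure ℝ) [IsProbabilityMeasure μ],
      HasTriple μ g s2 (ρ + levyOf (fun x => Real.exp (-(lamR * x)))
        (fun x => Real.exp (-(lamL * x)))) → StronglyUnimodal μ :=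
  thmF ρ hρ B hB lamR lamL hR hL

end Pool.Agent.Results.MP_a80c92_pr.GaussianThreshold
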