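import Pool.Agent.Lib.MP_a80c92_pr.NecA

/-!
# A necessary condition on the tails of the Lévy measure, for all triples

If the infinitely divisible law with triple `(g, s2, ν)` is strongly unimodal, then on each side
the Lévy measure has an exponential moment `J(s) = ∫_{x > 1} e^{sx} ν(dx) < ∞` for some `s > 0`,
and if `lam` is the finite abscissa of these moments then
`J(s) ≥ log (1/(lam - s)) - C` for `0 ≤ s < lam`: near the critical exponent the tail of `ν` is on
average at least as heavy as that of the exponential law with parameter `lam`, whose Lévy measure is
`e^{-lam x}/x dx`. In particular the abscissa is positive and the moment at the abscissa is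
infinite.
-/

namespace Pool.Agent.Results.MP_a80c92_pr.TailCondition

open MeasureTheory Pool.Agent.Lib.MP_a80c92_pr

/-- For every Lévy-Khinchin triple: strong unimodality implies `NecSide` for the Lévy measure and
for its reflection. -/
theorem result (μ : Measure ℝ) [IsProbabilityMeasure μ] (g s2 : ℝ) (ν : Measure ℝ)
    (h : HasTriple μ g s2 ν) (hsu : StronglyUnimodal μ) :
    NecSide ν ∧ NecSide (ν.map (fun x => -x)) :=
  necessary μ g s2 ν h hsu

end Pool.Agent.Results.MP_a80c92_pr.TailCondition
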