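import Pool.Agent.Lib.MP_a80c92_pr.N.NLat

/-!
# A quantitative necessary condition for all triples

Let `μ` be a strongly unimodal infinitely divisible law with triple `(g, s2, ν)`, `ν ≠ 0`. For
every `θ` in the interior of the exponential moment domain of `ν` and every `t ≠ 0`,

  `s2 t²/2 + ∫ (1 - cos tx) e^{θx} ν(dx) ≥ log |t| + (1/2) log (s2 + ∫ x² e^{θx} ν(dx)) - C0`

with an absolute constant `C0`, and the tilted variances `s2 + ∫ x² e^{θx} ν(dx)` are unbounded in
`θ`. So the left side is unbounded in `θ` for every `t ≠ 0`. In particular (`t = 2π/d`) a law with a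
nonzero Lévy measure on a lattice `d ℤ` is never strongly unimodal, whatever the Gaussian part and
the drift: this is `nl_lattice` in the library file.

Idea of the proof. A unimodal density `f ≤ M` satisfies `|∫ e^{itx} f| ≤ 5 M/|t|`, and a
log-concave density has second moment at most `100/M²` about its mode. For `c > 0` the
law of `c X + N(0,1)` has a log-concave density; so has its exponential tilt, whose
characteristic function has modulus `exp (-Psi_θ(t) - t²/(2c²))` at `t/c` and whose
variance is at least `c² V_θ`.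
-/

namespace Pool.Agent.Results.MP_a80c92_pr.TiltedCondition

open MeasureTheory Pool.Agent.Lib.MP_a80c92_pr

/-- The condition for all triples and all exponential tilts. -/
theorem result :
    ∃ C0 : ℝ, ∀ (μ : Measure ℝ) [IsProbabilityMeasure μ] (g s2 : ℝ) (ν : Measure ℝ),
      HasTriple μ g s2 ν → StronglyUnimodal μ → ν ≠ 0 →
      (∀ B : ℝ, ∃ θ : ℝ, InDom ν θ ∧ B < Vt s2 ν θ) ∧
      ∀ θ : ℝ, InDom ν θ → ∀ t : ℝ, t ≠ 0 →
        Real.log |t| + 1 / 2 * Real.log (Vt s2 ν θ) - C0 ≤ Psi s2 ν θ t := by
  obtain ⟨C0, h0⟩ := thmN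
  exact ⟨C0, fun μ _ g s2 ν h hsu hne => ⟨fun B => nl_unb μ g s2 ν h hsu hne B,
    fun θ hd t ht => h0 μ g s2 ν h hsu (Or.inr hne) θ hd t ht⟩⟩

end Pool.Agent.Results.MP_a80c92_pr.TiltedCondition
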